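import Pool.Agent.VTP.StmtsA

set_option autoImplicit false

namespace Pool.Agent.VTP.H88

open Finset Pool.Agent.ZOL Pool.Agent.VTP

theorem ni_insert {i : ℕ → ℕ → Prop} {a : ℕ} (ha : ∀ d, ¬ i a d ∧ ¬ i d a) (S : Finset ℕ) :
    NI i (insert a S) ↔ NI i S := by
  constructor
  · intro h c hc d hd
    exact h c (mem_insert_of_mem hc) d (mem_insert_of_mem hd)
  · intro h c hc d hd
    rcases mem_insert.mp hc with rfl | hc'
    · exact (ha d).1
    · rcases mem_insert.mp hd with rfl | hd'
      · exact (ha c).2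
      · exact h c hc' d hd'

theorem nn_one (V : Finset ℕ) (σ s : ℕ → ℤ) {i : ℕ → ℕ → Prop} {a : ℕ} (haV : a ∉ V)
    (ha : ∀ d, ¬ i a d ∧ ¬ i d a) {S : Finset ℕ} (haS : a ∉ S) :
    NN (insert a V) σ s i S = NN V σ s i S + σ a - s a := by
  classical
  unfold NN
  have h1 : (insert a V).filter (fun d => d ∉ S ∧ ∀ c ∈ S, ¬ i c d) =
      insert a (V.filter (fun d => d ∉ S ∧ ∀ c ∈ S, ¬ i c d)) := by
    rw [filter_insert, if_pos ⟨haS, fun c _ => (ha c).2⟩]
  rw [h1, sum_insert (fun h => haV (mem_filter.mp h).1), sum_insert haV]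
  ring

theorem nn_two (V : Finset ℕ) (σ s : ℕ → ℤ) {i : ℕ → ℕ → Prop} {a : ℕ} (haV : a ∉ V)
    (ha : ∀ d, ¬ i a d ∧ ¬ i d a) {S : Finset ℕ} (haS : a ∉ S) :
    NN (insert a V) σ s i (insert a S) = NN V σ s i S - σ a - s a := by
  classical
  unfold NN
  have h1 : (insert a V).filter (fun d => d ∉ insert a S ∧ ∀ c ∈ insert a S, ¬ i c d) =
      V.filter (fun d => d ∉ S ∧ ∀ c ∈ S, ¬ i c d) := by
    rw [filter_insert, if_neg (fun h => h.1 (mem_insert_self a S))]
    apply filter_congr
    intro d hd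
    have hda : d ≠ a := by rintro rfl; exact haV hd
    constructor
    · rintro ⟨h2, h3⟩
      exact ⟨fun h => h2 (mem_insert_of_mem h), fun c hc => h3 c (mem_insert_of_mem hc)⟩
    · rintro ⟨h2, h3⟩
      refine ⟨fun h => ?_, fun c hc => ?_⟩
      · rcases mem_insert.mp h with h4 | h4
        · exact hda h4
        · exact h2 h4
      · rcases mem_insert.mp hc with rfl | hc'
        · exact (ha d).1
        · exact h3 c hc'
  rw [h1, sum_insert haS, sum_insert haV]
  ring

/-- PR1 -/
theorem pr1 : Pr1Stmt := by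
  intro R _ q hq V σ s i a haV ha hs hσ
  classical
  unfold PP
  rw [sum_filter, sum_powerset_insert haV, sum_filter, ← sum_add_distrib]
  apply sum_congr
  · rfl
  intro S hS
  have haS : a ∉ S := fun h => haV (mem_powerset.mp hS h)
  simp only [ni_insert ha S]
  by_cases hNI : NI i S
  · simp only [hNI, if_true]
    rw [nn_one V σ s haV ha haS, nn_two V σ s haV ha haS, prod_insert haS]
    rcases hs with hs | hs
    · have h1 : xx q σ s a = 0 := by unfold xx; rw [if_pos hs]
      rw [h1, zero_mul, zero_mul, add_zero, hs]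
      congr 3
      ring
    · have hne : ¬ s a = σ a := by
        rw [hs]
        rcases hσ with h | h <;> rw [h] <;> decide
      have h1 : xx q σ s a = 1 - q (σ a) := by unfold xx; rw [if_neg hne]
      have h2 : (NN V σ s i S + σ a - s a) / 2 = NN V σ s i S / 2 + σ a := by
        rw [hs]
        omega
      have h3 : (NN V σ s i S - σ a - s a) = NN V σ s i S := by
        rw [hs]
        ring
      rw [h1, h2, h3, hq.2]
      ring
  · simp only [hNI, if_false, add_zero]

end Pool.Agent.VTP.H88
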